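import Pool.Agent.W262.RK.Stm2

/-!
# RK2-COMB4: the largest unlinked set
-/

set_option autoImplicit false

namespace Pool.Agent.W125.RK2

open Finset Pool.Agent.W262.RK

/-- the types `(v, χ)` -/
abbrev T : Type := (Bool × Bool) × (Bool × Bool)

/-- `χ_{t'}(v_t)` -/
def Lt (t t' : T) : Bool := xor (t'.2.1 && t.1.1) (t'.2.2 && t.1.2)

/-- zero type -/
def z0 : T := ((false, false), (false, false))

/-- `χ(v) = 0` -/
def sing (t : T) : Bool := !(xor (t.2.1 && t.1.1) (t.2.2 && t.1.2))

/-- column of a nonzero vector -/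
def col (v : Bool × Bool) : Fin 3 := if v = (true, false) then 0 else if v = (false, true) then 1 else 2

/-- the three transversals of the grid -/
def phi (t : T) : Fin 3 :=
  if t.2 = (false, false) then col t.1
  else if t.1 = (false, false) then col t.2.swap + 1
  else col t.1 + 2

lemma phi_inj' : ∀ t t' : T, (sing t && sing t' && !decide (t = z0) && !decide (t' = z0) &&
    decide (Lt t t' = Lt t' t) && decide (phi t = phi t')) = true → t = t' := by
  decide

lemma phi_inj (t t' : T) (h1 : sing t = true) (h2 : sing t' = true) (h3 : t ≠ z0) (h4 : t' ≠ z0)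
    (h5 : Lt t t' = Lt t' t) (h6 : phi t = phi t') : t = t' :=
  phi_inj' t t' (by simp [h1, h2, h3, h4, h5, h6])

lemma Al_sing : ∀ (c : Fin 4) (t : T), Al c t.1 t.2 = true → sing t = true := by
  decide

lemma Al_once : ∀ t : T, t ≠ z0 →
    (if Al 0 t.1 t.2 = true then 1 else 0) + (if Al 1 t.1 t.2 = true then 1 else 0) +
      (if Al 2 t.1 t.2 = true then 1 else 0) ≤ 1 := by
  decide

lemma Al_zero : (if Al 0 z0.1 z0.2 = true then 1 else 0) + (if Al 1 z0.1 z0.2 = true then 1 else 0) +
      (if Al 2 z0.1 z0.2 = true then 1 else 0) = 3 := by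
  decide

lemma card_erase_le (S : Finset T) (hs : ∀ t ∈ S, sing t = true)
    (hp : ∀ t ∈ S, ∀ t' ∈ S, Lt t t' = Lt t' t) : (S.erase z0).card ≤ 3 := by
  have h : (S.erase z0).card ≤ (univ : Finset (Fin 3)).card := by
    apply Finset.card_le_card_of_injOn phi (fun _ _ => mem_coe.2 (mem_univ _))
    intro t ht t' ht' h
    rw [mem_coe, mem_erase] at ht ht'
    exact phi_inj t t' (hs t ht.2) (hs t' ht'.2) ht.1 ht'.1 (hp t ht.2 t' ht'.2) h
  simpa using h

lemma card_S_le (S : Finset T) (hs : ∀ t ∈ S, sing t = true)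
    (hp : ∀ t ∈ S, ∀ t' ∈ S, Lt t t' = Lt t' t) : S.card ≤ 4 := by
  have h1 := card_erase_le S hs hp
  have h2 := Finset.pred_card_le_card_erase (s := S) (a := z0)
  omega

lemma sum_W_le (S : Finset T) (hs : ∀ t ∈ S, sing t = true)
    (hp : ∀ t ∈ S, ∀ t' ∈ S, Lt t t' = Lt t' t) :
    (S.filter (fun t => Al 0 t.1 t.2 = true)).card + (S.filter (fun t => Al 1 t.1 t.2 = true)).card +
      (S.filter (fun t => Al 2 t.1 t.2 = true)).card ≤ 6 := by
  have h1 := card_erase_le S hs hp
  rw [Finset.card_filter, Finset.card_filter, Finset.card_filter, ← Finset.sum_add_distrib,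
    ← Finset.sum_add_distrib]
  have h3 : ∑ t ∈ S.erase z0, ((if Al 0 t.1 t.2 = true then 1 else 0) +
      (if Al 1 t.1 t.2 = true then 1 else 0) + (if Al 2 t.1 t.2 = true then 1 else 0)) ≤ 3 := by
    calc _ ≤ ∑ t ∈ S.erase z0, 1 := Finset.sum_le_sum (fun t ht =>
          Al_once t (ne_of_mem_erase ht))
      _ ≤ 3 := by simpa using h1
  by_cases hz : z0 ∈ S
  · rw [← Finset.add_sum_erase S _ hz, Al_zero]
    omega
  · rw [Finset.erase_eq_of_notMem hz] at h3
    omega

variable {J : Type} [Fintype J] [DecidableEq J]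

theorem comb4 : COMB4 := by
  intro J _ _ cls n hn U hU
  classical
  set S : Finset T := U.image (fun i => i.1.2) with hS
  have hs : ∀ t ∈ S, sing t = true := by
    intro t ht
    obtain ⟨i, _, rfl⟩ := mem_image.1 ht
    exact Al_sing _ _ i.2
  have hp : ∀ t ∈ S, ∀ t' ∈ S, Lt t t' = Lt t' t := by
    intro t ht t' ht'
    obtain ⟨i, hi, rfl⟩ := mem_image.1 ht
    obtain ⟨i', hi', rfl⟩ := mem_image.1 ht'
    exact hU i hi i' hi'
  have c1 := card_S_le S hs hp
  have c2 := sum_W_le S hs hp
  set g : Fin 4 → ℝ := fun c => if c = 3 then 1 else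
    ((S.filter (fun t => Al c t.1 t.2 = true)).card : ℝ) / 2 with hg
  have hfib : ∀ j : J, ∑ i ∈ U.filter (fun i => i.1.1 = j), w4 cls i ≤ g (cls j) := by
    intro j
    have hinj : Set.InjOn (fun i : I4 cls => i.1.2) (U.filter (fun i => i.1.1 = j)) := by
      intro i hi i' hi' h
      rw [mem_coe, mem_filter] at hi hi'
      apply Subtype.ext
      exact Prod.ext (hi.2.trans hi'.2.symm) h
    by_cases hc : cls j = 3
    · have e : ∀ i ∈ U.filter (fun i => i.1.1 = j), w4 cls i = 1 / 4 := by
        intro i hi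
        unfold w4
        rw [(mem_filter.1 hi).2, if_pos hc]
      rw [Finset.sum_congr rfl e, Finset.sum_const, hg]
      simp only [hc, if_true]
      have h1 : (U.filter (fun i => i.1.1 = j)).card ≤ S.card := by
        apply Finset.card_le_card_of_injOn (fun i : I4 cls => i.1.2) _ hinj
        intro i hi
        rw [mem_coe, mem_filter] at hi
        exact mem_coe.2 (mem_image_of_mem _ hi.1)
      have h2 : (((U.filter (fun i => i.1.1 = j)).card : ℕ) : ℝ) ≤ 4 := by
        exact_mod_cast h1.trans c1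
      rw [nsmul_eq_mul]
      linarith
    · have e : ∀ i ∈ U.filter (fun i => i.1.1 = j), w4 cls i = 1 / 2 := by
        intro i hi
        unfold w4
        rw [(mem_filter.1 hi).2, if_neg hc]
      rw [Finset.sum_congr rfl e, Finset.sum_const, hg]
      simp only [hc, if_false]
      have h1 : (U.filter (fun i => i.1.1 = j)).card ≤
          (S.filter (fun t => Al (cls j) t.1 t.2 = true)).card := by
        apply Finset.card_le_card_of_injOn (fun i : I4 cls => i.1.2) _ hinj
        intro i hi
        rw [mem_coe, mem_filter] at hi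
        rw [mem_coe, mem_filter]
        refine ⟨mem_image_of_mem _ hi.1, ?_⟩
        have := i.2
        rw [hi.2] at this
        exact this
      have h2 : (((U.filter (fun i => i.1.1 = j)).card : ℕ) : ℝ) ≤
          ((S.filter (fun t => Al (cls j) t.1 t.2 = true)).card : ℝ) := by
        exact_mod_cast h1
      rw [nsmul_eq_mul]
      linarith
  have h3 : ∑ i ∈ U, w4 cls i ≤ ∑ j : J, g (cls j) := by
    rw [← Finset.sum_fiberwise (s := U) (g := fun i : I4 cls => i.1.1)]
    exact Finset.sum_le_sum (fun j _ => hfib j)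
  have h4 : ∑ j : J, g (cls j) = ∑ c : Fin 4, ((univ.filter (fun j => cls j = c)).card : ℝ) * g c := by
    rw [← Finset.sum_fiberwise (s := univ) (g := cls)]
    apply Finset.sum_congr rfl
    intro c _
    rw [Finset.sum_congr rfl (g := fun _ => g c) (fun j hj => by rw [(mem_filter.1 hj).2]),
      Finset.sum_const, nsmul_eq_mul]
  have h5 : (Fintype.card J : ℝ) = ∑ c : Fin 4, ((univ.filter (fun j => cls j = c)).card : ℝ) := by
    rw [← Finset.card_univ, Finset.card_eq_sum_card_fiberwise (f := cls) (t := univ)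
      (fun _ _ => mem_coe.2 (mem_univ _))]
    push_cast
    rfl
  rw [h5]
  refine h3.trans ?_
  rw [h4, Fin.sum_univ_four, Fin.sum_univ_four, hn 0 (by decide), hn 1 (by decide),
    hn 2 (by decide)]
  have g3 : g 3 = 1 := by simp [hg]
  have g0 : g 0 = ((S.filter (fun t => Al 0 t.1 t.2 = true)).card : ℝ) / 2 := by
    simp only [hg]; rw [if_neg (by decide)]
  have g1 : g 1 = ((S.filter (fun t => Al 1 t.1 t.2 = true)).card : ℝ) / 2 := by
    simp only [hg]; rw [if_neg (by decide)]
  have g2 : g 2 = ((S.filter (fun t => Al 2 t.1 t.2 = true)).card : ℝ) / 2 := by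
    simp only [hg]; rw [if_neg (by decide)]
  have c3 : ((S.filter (fun t => Al 0 t.1 t.2 = true)).card : ℝ) +
      ((S.filter (fun t => Al 1 t.1 t.2 = true)).card : ℝ) +
      ((S.filter (fun t => Al 2 t.1 t.2 = true)).card : ℝ) ≤ 6 := by
    exact_mod_cast c2
  have h6 : g 0 + g 1 + g 2 ≤ 3 := by
    rw [g0, g1, g2]
    linarith
  have h7 : (n : ℝ) * (g 0 + g 1 + g 2) ≤ n * 3 := mul_le_mul_of_nonneg_left h6 (by positivity)
  rw [g3]
  linarith

end Pool.Agent.W125.RK2
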