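import Pool.Agent.W262.RK.Stm2
import Pool.Agent.W262.RK.Bas

/-!
# RK2-SUB4: growth of the Selmer count
-/

set_option autoImplicit false

namespace Pool.Agent.W125.RK2

open Finset Pool.Agent.W262.RK

/-- the symbol of the part prime to `p` -/
def SS (p n : ℕ) : ℤ := jacobiSym ((n / p ^ n.factorization p : ℕ) : ℤ) p

lemma div_gcd_eq {n p : ℕ} (hn : Squarefree n) (hp : p.Prime) :
    ((n : ℤ) / (Int.gcd (n : ℤ) (p : ℤ) : ℤ)) = ((n / p ^ n.factorization p : ℕ) : ℤ) := by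
  have hn0 := hn.ne_zero
  have h1 : Int.gcd (n : ℤ) (p : ℤ) = p ^ n.factorization p := by
    rw [Int.gcd_natCast_natCast]
    by_cases h : p ∣ n
    · have hf : n.factorization p = 1 := by
        have h2 := hn.natFactorization_le_one p
        have h3 := hp.factorization_pos_of_dvd hn0 h
        omega
      rw [hf, pow_one]
      exact Nat.gcd_eq_right h
    · rw [Nat.factorization_eq_zero_of_not_dvd h, pow_zero]
      exact ((Nat.Prime.coprime_iff_not_dvd hp).2 h).symm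
  rw [h1]
  norm_cast

lemma SS_pm {p n : ℕ} (hp : p.Prime) (hn : n ≠ 0) : SS p n = 1 ∨ SS p n = -1 := by
  apply jacobiSym.eq_one_or_neg_one
  rw [Int.gcd_natCast_natCast]
  exact (Nat.coprime_ordCompl hp hn).symm

lemma SS_mul (p a b : ℕ) : SS p (a * b) = SS p a * SS p b := by
  unfold SS
  rw [Nat.ordCompl_mul, Nat.cast_mul, jacobiSym.mul_left]

lemma sgn_eq {n p : ℕ} (hn : Squarefree n) (hp : p.Prime) :
    sgn p (n : ℤ) = decide (SS p n = -1) := by
  unfold sgn sg0 SS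
  rw [div_gcd_eq hn hp]

lemma dv_eq (p n : ℕ) : dv p (n : ℤ) = decide (p ∣ n) := by
  unfold dv
  simp only [Int.natCast_dvd_natCast]

/-- symmetric difference -/
def sig (d b : ℕ) : ℕ := (d / d.gcd b) * (b / d.gcd b)

lemma prime_dvd_div {d b p : ℕ} (hd : Squarefree d) (hp : p.Prime) :
    p ∣ d / d.gcd b ↔ p ∣ d ∧ ¬ p ∣ b := by
  have hc : d.gcd b ∣ d := Nat.gcd_dvd_left d b
  have he : d.gcd b * (d / d.gcd b) = d := Nat.mul_div_cancel' hc
  constructor
  · intro h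
    refine ⟨h.trans (Nat.div_dvd_of_dvd hc), fun hb => ?_⟩
    have h1 : p ∣ d := h.trans (Nat.div_dvd_of_dvd hc)
    have h2 : p ∣ d.gcd b := Nat.dvd_gcd h1 hb
    have h3 : p * p ∣ d := by
      rw [← he]
      exact mul_dvd_mul h2 h
    exact (Nat.squarefree_iff_prime_squarefree.1 hd p hp) h3
  · rintro ⟨h1, h2⟩
    rw [← he] at h1
    rcases (Nat.Prime.dvd_mul hp).1 h1 with h3 | h3
    · exact absurd (h3.trans (Nat.gcd_dvd_right d b)) h2
    · exact h3

lemma prime_dvd_div' {d b p : ℕ} (hb : Squarefree b) (hp : p.Prime) :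
    p ∣ b / d.gcd b ↔ p ∣ b ∧ ¬ p ∣ d := by
  rw [Nat.gcd_comm]
  exact prime_dvd_div hb hp

lemma prime_dvd_sig {d b p : ℕ} (hd : Squarefree d) (hb : Squarefree b) (hp : p.Prime) :
    p ∣ sig d b ↔ (p ∣ d ∧ ¬ p ∣ b) ∨ (p ∣ b ∧ ¬ p ∣ d) := by
  unfold sig
  rw [Nat.Prime.dvd_mul hp, prime_dvd_div hd hp, prime_dvd_div' hb hp]

lemma sig_sq {d b : ℕ} (hd : Squarefree d) (hb : Squarefree b) : Squarefree (sig d b) := by
  unfold sig
  have hpos : 0 < d.gcd b := Nat.gcd_pos_of_pos_left _ (Nat.pos_of_ne_zero hd.ne_zero)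
  rw [Nat.squarefree_mul (Nat.coprime_div_gcd_div_gcd hpos)]
  exact ⟨hd.squarefree_of_dvd (Nat.div_dvd_of_dvd (Nat.gcd_dvd_left d b)),
    hb.squarefree_of_dvd (Nat.div_dvd_of_dvd (Nat.gcd_dvd_right d b))⟩

lemma sig_mul (d b : ℕ) : sig d b * (d.gcd b * d.gcd b) = d * b := by
  unfold sig
  have h1 : d.gcd b * (d / d.gcd b) = d := Nat.mul_div_cancel' (Nat.gcd_dvd_left d b)
  have h2 : d.gcd b * (b / d.gcd b) = b := Nat.mul_div_cancel' (Nat.gcd_dvd_right d b)
  calc d / d.gcd b * (b / d.gcd b) * (d.gcd b * d.gcd b) =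
      (d.gcd b * (d / d.gcd b)) * (d.gcd b * (b / d.gcd b)) := by ring
    _ = d * b := by rw [h1, h2]

lemma dv_sig {d b p : ℕ} (hd : Squarefree d) (hb : Squarefree b) (hp : p.Prime) :
    dv p (sig d b : ℕ) = xor (dv p (d : ℤ)) (dv p (b : ℤ)) := by
  rw [dv_eq, dv_eq, dv_eq]
  have := prime_dvd_sig hd hb hp
  by_cases h1 : p ∣ d <;> by_cases h2 : p ∣ b <;> simp [h1, h2] at this ⊢ <;> simpa using this

lemma sgn_sig {d b p : ℕ} (hd : Squarefree d) (hb : Squarefree b) (hp : p.Prime) :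
    sgn p (sig d b : ℕ) = xor (sgn p (d : ℤ)) (sgn p (b : ℤ)) := by
  rw [sgn_eq (sig_sq hd hb) hp, sgn_eq hd hp, sgn_eq hb hp]
  have h1 : SS p (sig d b) * (SS p (d.gcd b) * SS p (d.gcd b)) = SS p d * SS p b := by
    rw [← SS_mul, ← SS_mul, ← SS_mul, sig_mul]
  have h2 : SS p (d.gcd b) * SS p (d.gcd b) = 1 := by
    have hpos : 0 < d.gcd b := Nat.gcd_pos_of_pos_left _ (Nat.pos_of_ne_zero hd.ne_zero)
    rcases SS_pm hp hpos.ne' with h | h <;> rw [h] <;> norm_num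
  rw [h2, mul_one] at h1
  rw [h1]
  rcases SS_pm hp hd.ne_zero with h | h <;> rcases SS_pm hp hb.ne_zero with h' | h' <;>
    rw [h, h'] <;> decide

lemma not_dvd_e {d b e p : ℕ} (hde : d.gcd e = b.gcd e) (h : p ∣ d) (h' : ¬ p ∣ b) :
    ¬ p ∣ e := by
  intro he
  have h1 : p ∣ d.gcd e := Nat.dvd_gcd h he
  rw [hde] at h1
  exact h' (h1.trans (Nat.gcd_dvd_left _ _))

lemma sig_dvd {m e d b : ℕ} (hme : Squarefree (m * e)) (hd : d ∣ m * e) (hb : b ∣ m * e)
    (hde : d.gcd e = b.gcd e) : sig d b ∣ m := by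
  have hds := hme.squarefree_of_dvd hd
  have hbs := hme.squarefree_of_dvd hb
  have hpos : 0 < d.gcd b := Nat.gcd_pos_of_pos_left _ (Nat.pos_of_ne_zero hds.ne_zero)
  unfold sig
  apply Nat.Coprime.mul_dvd_of_dvd_of_dvd (Nat.coprime_div_gcd_div_gcd hpos)
  · have h1 : (d / d.gcd b).Coprime e := by
      apply Nat.coprime_of_dvd
      intro p hp h
      have h2 := (prime_dvd_div hds hp).1 h
      exact not_dvd_e hde h2.1 h2.2
    exact h1.dvd_of_dvd_mul_right ((Nat.div_dvd_of_dvd (Nat.gcd_dvd_left d b)).trans hd)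
  · have h1 : (b / d.gcd b).Coprime e := by
      apply Nat.coprime_of_dvd
      intro p hp h
      have h2 := (prime_dvd_div' hbs hp).1 h
      exact not_dvd_e hde.symm h2.1 h2.2
    exact h1.dvd_of_dvd_mul_right ((Nat.div_dvd_of_dvd (Nat.gcd_dvd_right d b)).trans hb)

lemma sig_inj {m e d d' b : ℕ} (hme : Squarefree (m * e)) (hd : d ∣ m * e) (hd' : d' ∣ m * e)
    (hb : b ∣ m * e) (_h1 : d.gcd e = b.gcd e) (_h2 : d'.gcd e = b.gcd e)
    (h : sig d b = sig d' b) : d = d' := by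
  have hds := hme.squarefree_of_dvd hd
  have hds' := hme.squarefree_of_dvd hd'
  have hbs := hme.squarefree_of_dvd hb
  rw [Nat.Squarefree.ext_iff hds hds']
  intro p hp
  have a1 := prime_dvd_sig hds hbs hp
  have a2 := prime_dvd_sig hds' hbs hp
  rw [h] at a1
  by_cases c0 : p ∣ b <;> by_cases c1 : p ∣ d <;> by_cases c2 : p ∣ d' <;> simp_all

lemma card_div {e : ℕ} (he : Squarefree e) : e.divisors.card = 2 ^ e.primeFactors.card := by
  rw [Nat.card_divisors he.ne_zero, ← Finset.prod_const]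
  apply Finset.prod_congr rfl
  intro p hp
  have h1 := he.natFactorization_le_one p
  have h2 := (Nat.prime_of_mem_primeFactors hp).factorization_pos_of_dvd he.ne_zero
    (Nat.dvd_of_mem_primeFactors hp)
  omega

theorem sub4 : SUB4 := by
  classical
  intro m e L hme hXC
  have he := hme.squarefree_of_dvd (Dvd.intro_left m rfl)
  have hm0 : m ≠ 0 := left_ne_zero_of_mul hme.ne_zero
  have he0 : e ≠ 0 := right_ne_zero_of_mul hme.ne_zero
  unfold NL
  set A := ((m * e).divisors ×ˢ (m * e).divisors).filter (fun d : ℕ × ℕ =>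
    ∀ p ∈ (m * e).primeFactors, L p (dv p d.1) (dv p d.2) (sgn p d.1) (sgn p d.2)) with hA
  set B := (m.divisors ×ˢ m.divisors).filter (fun d : ℕ × ℕ => ∀ p ∈ m.primeFactors,
    L p (dv p d.1) (dv p d.2) (sgn p d.1) (sgn p d.2)) with hB
  have hAm : ∀ d ∈ A, (d.1 ∣ m * e ∧ d.2 ∣ m * e) ∧ ∀ p, p.Prime → p ∣ m →
      L p (dv p d.1) (dv p d.2) (sgn p d.1) (sgn p d.2) := by
    intro d hd
    rw [hA, mem_filter, mem_product, Nat.mem_divisors, Nat.mem_divisors] at hd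
    exact ⟨⟨hd.1.1.1, hd.1.2.1⟩, fun p hp hpm => hd.2 p (Nat.mem_primeFactors.2
      ⟨hp, hpm.trans (Dvd.intro _ rfl), hme.ne_zero⟩)⟩
  set f : ℕ × ℕ → ℕ × ℕ := fun d => (d.1.gcd e, d.2.gcd e) with hf
  have hfib : ∀ a ∈ A.image f, (A.filter (fun x => f x = a)).card ≤ B.card := by
    intro a ha
    obtain ⟨b, hb, rfl⟩ := mem_image.1 ha
    have hb' := hAm b hb
    have hb1 := hme.squarefree_of_dvd hb'.1.1
    have hb2 := hme.squarefree_of_dvd hb'.1.2
    apply Finset.card_le_card_of_injOn (fun d : ℕ × ℕ => (sig d.1 b.1, sig d.2 b.2))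
    · intro d hd
      rw [mem_coe, mem_filter] at hd
      have hd' := hAm d hd.1
      have hd1 := hme.squarefree_of_dvd hd'.1.1
      have hd2 := hme.squarefree_of_dvd hd'.1.2
      have e1 : d.1.gcd e = b.1.gcd e := congrArg Prod.fst hd.2
      have e2 : d.2.gcd e = b.2.gcd e := congrArg Prod.snd hd.2
      rw [mem_coe, hB, mem_filter, mem_product, Nat.mem_divisors, Nat.mem_divisors]
      refine ⟨⟨⟨sig_dvd hme hd'.1.1 hb'.1.1 e1, hm0⟩, ⟨sig_dvd hme hd'.1.2 hb'.1.2 e2, hm0⟩⟩, ?_⟩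
      intro p hp
      have hpp := Nat.prime_of_mem_primeFactors hp
      have hpm := Nat.dvd_of_mem_primeFactors hp
      show L p (dv p (sig d.1 b.1 : ℕ)) (dv p (sig d.2 b.2 : ℕ)) (sgn p (sig d.1 b.1 : ℕ))
        (sgn p (sig d.2 b.2 : ℕ))
      rw [dv_sig hd1 hb1 hpp, dv_sig hd2 hb2 hpp, sgn_sig hd1 hb1 hpp, sgn_sig hd2 hb2 hpp]
      exact (hXC p hpp hpm).2 _ _ _ _ _ _ _ _ (hd'.2 p hpp hpm) (hb'.2 p hpp hpm)
    · intro d hd d' hd' h
      rw [mem_coe, mem_filter] at hd hd'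
      have g := hAm d hd.1
      have g' := hAm d' hd'.1
      have h1 : sig d.1 b.1 = sig d'.1 b.1 := congrArg Prod.fst h
      have h2 : sig d.2 b.2 = sig d'.2 b.2 := congrArg Prod.snd h
      exact Prod.ext
        (sig_inj hme g.1.1 g'.1.1 hb'.1.1 (congrArg Prod.fst hd.2) (congrArg Prod.fst hd'.2) h1)
        (sig_inj hme g.1.2 g'.1.2 hb'.1.2 (congrArg Prod.snd hd.2) (congrArg Prod.snd hd'.2) h2)
  have h1 := Finset.card_le_mul_card_image A B.card hfib
  have h2 : (A.image f).card ≤ 4 ^ e.primeFactors.card := by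
    have h3 : A.image f ⊆ e.divisors ×ˢ e.divisors := by
      intro a ha
      obtain ⟨b, hb, rfl⟩ := mem_image.1 ha
      rw [mem_product, Nat.mem_divisors, Nat.mem_divisors]
      exact ⟨⟨Nat.gcd_dvd_right _ _, he0⟩, ⟨Nat.gcd_dvd_right _ _, he0⟩⟩
    refine (Finset.card_le_card h3).trans ?_
    rw [Finset.card_product, card_div he, ← mul_pow]
    norm_num
  calc A.card ≤ B.card * (A.image f).card := h1
    _ ≤ B.card * 4 ^ e.primeFactors.card := Nat.mul_le_mul_left _ h2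
    _ = 4 ^ e.primeFactors.card * B.card := mul_comm _ _

end Pool.Agent.W125.RK2
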